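import Pool.Agent.H46.Wx.C
set_option autoImplicit false
open Pool.Agent.H46.Wx

namespace Pool.Agent.Results.MP_9b3446_nt.Exists

/-- For all `n ≥ 1`, `k ≥ 2`, `δ ≥ 0` there is a real transcendental `ξ` and a real `w` with
`w_{kn}(ξ) = w*_{kn}(ξ) = w + δ` and `w_n(ξ^k) = w*_n(ξ^k) = w`. -/
theorem result (n k : ℕ) (hn : 1 ≤ n) (hk : 2 ≤ k) (δ : ℝ) (hδ : 0 ≤ δ) :
    ∃ ξ w : ℝ, Transcendental ℚ ξ ∧
      IsLUB (wSet (k * n) ξ) (w + δ) ∧ IsLUB (wSet n (ξ ^ k)) w ∧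
      IsLUB (wsSet (k * n) ξ) (w + δ) ∧ IsLUB (wsSet n (ξ ^ k)) w :=
  main n k hn hk δ hδ

end Pool.Agent.Results.MP_9b3446_nt.Exists
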